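import Pool.Agent.W936.Main

/-!
# Identity testing for circuits of exponential degree: sums of power products of general
polynomials, of bounded transcendence degree or in far classes

`ACIT` is the set of the codes of the well-formed arithmetic circuits computing the zero
polynomial. For all constants `w ≥ 1, s, D, t, κ, k, r` and every fixed exponent `c` there is a
deterministic polynomial-time machine that accepts all of `ACIT` and rejects all codes of circuits
that compute a polynomial with `Tame w s D t κ k r (m ^ c)`, where `m` is the length of the code.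

The class consists of divisors of products of sums `∑_i c_i ∏_j g_j ^ e_ij` of power products with
exponentially large exponents. It contains all sums of `κ` such products, where the `g_j` are any
polynomials of bounded degree (depth-4 circuits of bounded top fan-in and bounded bottom degree,
with exponentially large exponents), or polynomials in boundedly many formulas over oblivious
branching programs of constant width with boundedly many reads; more generally all sums of
unboundedly many such products of transcendence degree at most `κ`, and sums of far classes of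
such products.

The algorithm evaluates the circuit modulo powers of small primes at the points of the generator
of Shpilka and Volkovich, `x_i = ∑_t y_t ∏_{j ≠ i} (z_t + j + 1)`. New ingredients: the p-adic
hitting theorem `hitS` and the decision procedure for this generator (the starting results on this
problem use the generator `∑_t y_t z_t ^ i`, which is only known to be injective on sums of many
products for classes that are closed under linear changes of variables), and the closure of the
classes of polynomials under renaming of the variables. The p-adic estimate is the one of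
`Pool.Agent.H531R2` and `Pool.Agent.H626R2`; the hitting theorems over the complex numbers are
`rank_hit2` of `Pool.Agent.H530R2` (with the local-to-global principle for algebraic independence
of `Pool.Agent.H626R2.Loc`), `Far.hit` (`Pool.Agent.H964R4`) and `Clu.clusters_exps`
(`Pool.Agent.H626R2.Clu`) of the starting repository.
-/

set_option autoImplicit false

namespace Pool.Agent.Results.MP_b2b50d_lc.FarComposite

open Pool.Agent.NPC Pool.Agent.H531R2 Pool.Agent.W936 MvPolynomial
open Pool.Agent.Results.MP_c2aa42_lc.FarSums (Far)
open Pool.Agent.Results.MP_c2aa42_lc.SumsOfFormulaProducts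

/-- Sums of unboundedly many power products of transcendence degree at most `κ`. -/
theorem few_of_trdeg {w s D t κ k r n : ℕ} (g : Fin n → MvPolynomial (Fin n) ℤ)
    (e : Fin n → Fin n → ℕ) (c : Fin n → ℚ)
    (hg : ∀ j, g j ≠ 0 ∧ (g j).totalDegree ≤ n ∧
      ∑ a ∈ (g j).support, (coeff a (g j)).natAbs ≤ 2 ^ n)
    (hgc : ∀ j, Composite w s D t (map (Int.castRingHom ℂ) (g j)))
    (he : ∀ i j, e i j ≤ 2 ^ n)
    (htr : ∀ u : Fin (κ + 1) → Fin n, ¬ AlgebraicIndependent ℂ
      (fun a => map (Int.castRingHom ℂ) (∏ j, g j ^ e (u a) j))) :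
    Few w s D t κ k r n (∑ i, C (c i) * ∏ j, map (Int.castRingHom ℚ) (g j) ^ e i j) := by
  classical
  refine ⟨g, e, c, hg, he, fun δ => Far.base (Or.inl ?_), rfl⟩
  set T : Fin n → Multiset (MvPolynomial (Fin n) ℂ) := fun i =>
    ∑ j, Multiset.replicate (e i j) (map (Int.castRingHom ℂ) (g j)) with hT
  have hprod : ∀ i, (T i).prod = map (Int.castRingHom ℂ) (∏ j, g j ^ e i j) := by
    intro i
    simp only [hT, Multiset.prod_sum, Multiset.prod_replicate, map_prod, map_pow]
  refine ⟨n, T, ?_, ?_, ?_⟩
  · intro i h hh
    simp only [hT, Multiset.mem_sum, Finset.mem_univ, true_and] at hh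
    obtain ⟨j, hj⟩ := hh
    rw [Multiset.eq_of_mem_replicate hj]
    exact hgc j
  · intro u hu
    simp only [hprod] at hu
    exact htr u hu
  · rw [map_sum]
    refine Subalgebra.sum_mem _ fun i _ => ?_
    rw [map_mul, map_C, ← hprod]
    exact Subalgebra.mul_mem _ (Subalgebra.algebraMap_mem _ _)
      (Algebra.subset_adjoin ⟨i, rfl⟩)

/-- Polynomials of degree at most `s` are composite. -/
theorem composite_of_degree {w s D t n : ℕ} (hsw : s + 1 ≤ w) {f : MvPolynomial (Fin n) ℂ}
    (hf : f.totalDegree ≤ s) : Composite w s D t f := by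
  classical
  have h0 : Abp w s 0 f := by
    refine Abp.leaf (Or.inr fun a ha => ?_) fun i => ?_
    · refine le_trans ?_ ((le_totalDegree ha).trans hf)
      rw [Finsupp.sum, Finset.card_eq_sum_ones]
      exact Finset.sum_le_sum fun i hi => Nat.one_le_iff_ne_zero.2 (Finsupp.mem_support_iff.1 hi)
    · refine (Finset.card_le_card (t := Finset.range (s + 1)) ?_).trans (by simpa using hsw)
      intro e he
      obtain ⟨a, ha, rfl⟩ := Finset.mem_image.1 he
      refine Finset.mem_range.2 (Nat.lt_succ_of_le (le_trans ?_ ((le_totalDegree ha).trans hf)))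
      by_cases h : i ∈ a.support
      · exact Finset.single_le_sum (f := fun i => a i) (fun _ _ => Nat.zero_le _) h
      · rw [Finsupp.notMem_support_iff.1 h]
        exact Nat.zero_le _
  have hw : 1 ≤ w := le_trans (Nat.succ_pos s) hsw
  have hD : ∀ D : ℕ, Abp w s D f := by
    intro D
    induction D with
    | zero => exact h0
    | succ D ih => exact abp_lift hw ih
  refine comp_formula hw (Formula.leaf f) (hD D) (fun x => ?_) (Nat.zero_le t)
  simp only [Formula.reads]
  split_ifs
  · exact hw
  · exact Nat.zero_le w

/-- Sums of `κ` power products of polynomials of degree at most `s`: depth-4 circuits of top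
fan-in `κ` and bottom degree `s`, with exponentially large exponents. -/
theorem few_of_fanin {w s D t κ k r n : ℕ} (hsw : s + 1 ≤ w) (hκ : 1 ≤ κ) (hκn : κ ≤ n)
    (g : Fin n → MvPolynomial (Fin n) ℤ) (e : Fin κ → Fin n → ℕ) (c : Fin κ → ℚ)
    (hg : ∀ j, g j ≠ 0 ∧ (g j).totalDegree ≤ s ∧ (g j).totalDegree ≤ n ∧
      ∑ a ∈ (g j).support, (coeff a (g j)).natAbs ≤ 2 ^ n)
    (he : ∀ i j, e i j ≤ 2 ^ n) :
    Few w s D t κ k r n (∑ i, C (c i) * ∏ j, map (Int.castRingHom ℚ) (g j) ^ e i j) := by
  classical
  obtain ⟨n', rfl⟩ : ∃ n', n = κ + n' := ⟨n - κ, by omega⟩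
  let ι : Fin (κ + n') → Fin κ := fun i => Fin.addCases (motive := fun _ => Fin κ)
    (fun i => i) (fun _ => ⟨0, hκ⟩) i
  let c' : Fin (κ + n') → ℚ := fun i => Fin.addCases (motive := fun _ => ℚ) c (fun _ => 0) i
  have h := few_of_trdeg (w := w) (s := s) (D := D) (t := t) (κ := κ) (k := k) (r := r) g
    (fun i => e (ι i)) c' (fun j => ⟨(hg j).1, (hg j).2.2.1, (hg j).2.2.2⟩)
    (fun j => composite_of_degree hsw (le_trans ?_ (hg j).2.1)) (fun i j => he _ j) ?_
  · convert h using 1
    rw [Fin.sum_univ_add]
    simp [ι, c']
  · rw [totalDegree, totalDegree]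
    exact Finset.sup_mono (support_map_subset _ _)
  · intro u hu
    have h1 : Function.Injective (fun a => ι (u a)) := by
      intro a b hab
      apply hu.injective
      simp only at hab ⊢
      rw [hab]
    have h2 := Fintype.card_le_of_injective _ h1
    rw [Fintype.card_fin, Fintype.card_fin] at h2
    omega

/-- (1) The decision procedure. (2) The class contains the sums of unboundedly many power products
of transcendence degree at most `κ` of polynomials with `Composite w s D t`. (3) It contains the
sums of `κ` power products of polynomials of degree at most `s` (depth-4 circuits of bounded top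
fan-in and bottom degree with exponentially large exponents), if `s < w`. -/
theorem result (w s D t κ k r : ℕ) (hw : 1 ≤ w) :
    (∀ c : ℕ, ∃ A : List Bool → List Bool, PolyTime A ∧
      (∀ x, A x = [true] ∨ A x = [false]) ∧
      (∀ x ∈ ACIT, A x = [true]) ∧
      (∀ x, (∀ C : List Gate, WF C → bits C ≠ x) → A x = [false]) ∧
      ∀ C : List Gate, Tame w s D t κ k r ((bits C).length ^ c) (cpoly C) →
        A (bits C) = [false]) ∧
    (∀ (n : ℕ) (g : Fin n → MvPolynomial (Fin n) ℤ) (e : Fin n → Fin n → ℕ) (c : Fin n → ℚ),
      (∀ j, g j ≠ 0 ∧ (g j).totalDegree ≤ n ∧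
        ∑ a ∈ (g j).support, (coeff a (g j)).natAbs ≤ 2 ^ n) →
      (∀ j, Composite w s D t (map (Int.castRingHom ℂ) (g j))) →
      (∀ i j, e i j ≤ 2 ^ n) →
      (∀ u : Fin (κ + 1) → Fin n, ¬ AlgebraicIndependent ℂ
        (fun a => map (Int.castRingHom ℂ) (∏ j, g j ^ e (u a) j))) →
      Few w s D t κ k r n (∑ i, C (c i) * ∏ j, map (Int.castRingHom ℚ) (g j) ^ e i j)) ∧
    ∀ (n : ℕ) (g : Fin n → MvPolynomial (Fin n) ℤ) (e : Fin κ → Fin n → ℕ) (c : Fin κ → ℚ),
      s + 1 ≤ w → 1 ≤ κ → κ ≤ n →
      (∀ j, g j ≠ 0 ∧ (g j).totalDegree ≤ s ∧ (g j).totalDegree ≤ n ∧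
        ∑ a ∈ (g j).support, (coeff a (g j)).natAbs ≤ 2 ^ n) →
      (∀ i j, e i j ≤ 2 ^ n) →
      Few w s D t κ k r n (∑ i, C (c i) * ∏ j, map (Int.castRingHom ℚ) (g j) ^ e i j) :=
  ⟨fun c => main w s D t κ k r c hw,
    fun _ g e c hg hgc he htr => few_of_trdeg g e c hg hgc he htr,
    fun _ g e c hsw hκ hκn hg he => few_of_fanin hsw hκ hκn g e c hg he⟩

end Pool.Agent.Results.MP_b2b50d_lc.FarComposite
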