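import Mathlib
import Pool.Agent.W943.Ork5
import Pool.Agent.W943.Ork6

/-!
# Polynomial-size explicit hitting sets for orbits of constant-width, constant-read programs

Compositions `F ∘ φ`, where `F` is computed by a program of constant width which reads every
variable a constant number of times, in any order (for instance an oblivious algebraic branching
program of constant width and constant read), nested to constant depth, or by a composite of
bounded transcendence degree of such polynomials, and `φ` is a tuple of independent affine forms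
(orbits), or more generally a tuple of polynomials whose Jacobian matrix has a polynomial left
inverse. The explicit set has `((d+1)(nd+1))^s` points with `s` independent of the numbers of
variables, the length and the degree.
-/

namespace Pool.Agent.Results.MP_b2b50d_lc.OrbitsOfReadKPrograms

open MvPolynomial

/-- `f` has rank at most `r` in the variable `k`: it is a sum of `r` products of a univariate
polynomial in `x_k` and a polynomial without `x_k`. Polynomials of degree less than `r` in `x_k`
have this property. -/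
def RankLe {n : ℕ} (k : Fin n) (r : ℕ) (f : MvPolynomial (Fin n) ℂ) : Prop :=
  ∃ (b : Fin r → Polynomial ℂ) (c : Fin r → MvPolynomial (Fin n) ℂ), (∀ a, k ∉ (c a).vars) ∧
    f = ∑ a, Polynomial.aeval (X k) (b a) * c a

/-- The contents of `u` registers after `b` steps. The registers start with the constants `c₀`;
step `b` replaces the contents of register `j` by an arbitrary polynomial `upd b j` in the old
contents of the registers and the `v` arguments `arg b 0, …, arg b (v-1)` of this step. -/
noncomputable def contents {n u v : ℕ} (c₀ : Fin u → ℂ)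
    (arg : ℕ → Fin v → MvPolynomial (Fin n) ℂ)
    (upd : ℕ → Fin u → MvPolynomial (Fin u ⊕ Fin v) ℂ) : ℕ → Fin u → MvPolynomial (Fin n) ℂ
  | 0 => fun j => C (c₀ j)
  | b + 1 => fun j => aeval (Sum.elim (contents c₀ arg upd b) (arg b)) (upd b j)

/-- `Comp w D f`: the polynomial `f` is computed with width and number of reads `w` and depth
`D`.
* `base` (depth `0`): sums of `w` products of `w` univariate polynomials of arbitrary degree and a
  polynomial of total degree at most `w`.
* `linear` (depth `D + 1`): the bilinear form `u ⬝ M_0 M_1 ⋯ M_{R-1} ⬝ v` of any length `R`, where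
  the entries of the `w × w` matrices `M_t` have depth `D` and every variable occurs in at most `w`
  of these matrices.
* `program` (depth `D + 1`): a polynomial `P` in the final contents of at most `w` registers of a
  program with arbitrary polynomial updates and at most `w` arguments of depth `D` in every step.
  Up to a set `S` of at most `w` exceptional variables, every variable occurs in the arguments of
  at most `w` steps; the contents and the result have rank at most `w` in every variable. -/
inductive Comp {n : ℕ} (w : ℕ) : ℕ → MvPolynomial (Fin n) ℂ → Prop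
  | base (i : Fin w → Fin w → Fin n) (p : Fin w → Fin w → Polynomial ℂ)
      (g : Fin w → MvPolynomial (Fin n) ℂ) (hg : ∀ a, (g a).totalDegree ≤ w) :
      Comp w 0 (∑ a, (∏ b, Polynomial.aeval (X (i a b)) (p a b)) * g a)
  | up {D : ℕ} {f : MvPolynomial (Fin n) ℂ} : Comp w D f → Comp w (D + 1) f
  | linear {D : ℕ} (R : ℕ) (M : Fin R → Matrix (Fin w) (Fin w) (MvPolynomial (Fin n) ℂ))
      (u v : Fin w → ℂ) (hM : ∀ t i j, Comp w D (M t i j))
      (hR : ∀ k, (Finset.univ.filter fun t => ∃ i j, k ∈ (M t i j).vars).card ≤ w) :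
      Comp w (D + 1) (∑ i, ∑ j, C (u i) * (List.ofFn M).prod i j * C (v j))
  | program {D u v : ℕ} (c₀ : Fin u → ℂ) (arg : ℕ → Fin v → MvPolynomial (Fin n) ℂ)
      (upd : ℕ → Fin u → MvPolynomial (Fin u ⊕ Fin v) ℂ) (R : ℕ) (P : MvPolynomial (Fin u) ℂ)
      (S : Finset (Fin n)) : u ≤ w → v ≤ w → S.card ≤ w →
      (∀ k, k ∉ S → ((Finset.range R).filter fun b => ∃ i, k ∈ (arg b i).vars).card ≤ w) →
      (∀ b i, Comp w D (arg b i)) →
      (∀ t ≤ R, ∀ j k, RankLe k w (contents c₀ arg upd t j)) →
      (∀ k, RankLe k w (aeval (contents c₀ arg upd R) P)) →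
      Comp w (D + 1) (aeval (contents c₀ arg upd R) P)

/-- Composites `P(g_0, …, g_{N-1})` of polynomials of depth `D`, any `r + 1` of which are
algebraically dependent; the number `N`, the polynomial `P` and its degree are arbitrary. -/
def Composite {n : ℕ} (w D r : ℕ) (f : MvPolynomial (Fin n) ℂ) : Prop :=
  ∃ (N : ℕ) (g : Fin N → MvPolynomial (Fin n) ℂ) (P : MvPolynomial (Fin N) ℂ),
    (∀ i, Comp w D (g i)) ∧
    (∀ q : Fin (r + 1) → Fin N, ¬ AlgebraicIndependent ℂ (fun i => g (q i))) ∧ f = aeval g P

/-- `Cls w D r n f`: the nonzero polynomials `F(φ_0, …, φ_{m-1})` in `n` variables, for composites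
`F` in any number `m` of variables and tuples `φ` of polynomials whose Jacobian matrix has a left
inverse over the polynomial ring (for example `m` linearly independent affine forms, or coordinates
of a polynomial automorphism), and all products and factors of such polynomials. -/
inductive Cls (w D r n : ℕ) : MvPolynomial (Fin n) ℂ → Prop
  | comp {m : ℕ} {F : MvPolynomial (Fin m) ℂ} (hF : Composite w D r F)
      (φ : Fin m → MvPolynomial (Fin n) ℂ) (E : Fin m → Fin n → MvPolynomial (Fin n) ℂ)
      (hE : ∀ i k, ∑ l, E i l * pderiv l (φ k) = if i = k then 1 else 0)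
      (h0 : aeval φ F ≠ 0) : Cls w D r n (aeval φ F)
  | mul {f g : MvPolynomial (Fin n) ℂ} : Cls w D r n f → Cls w D r n g → Cls w D r n (f * g)
  | factor {f g : MvPolynomial (Fin n) ℂ} : Cls w D r n g → f ∣ g → Cls w D r n f

/-- The oblivious branching program `u ⬝ M_0(x_{a 0}) M_1(x_{a 1}) ⋯ M_{l-1}(x_{a (l-1)}) ⬝ v` of
width `w`, with matrices of univariate polynomials, which reads the variables in the order
`a 0, a 1, …, a (l-1)`. -/
noncomputable def oblivious {n w l : ℕ} (a : Fin l → Fin n)
    (M : Fin l → Matrix (Fin w) (Fin w) (Polynomial ℂ)) (u v : Fin w → ℂ) :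
    MvPolynomial (Fin n) ℂ :=
  ∑ i, ∑ j, C (u i) * (List.ofFn fun t : Fin l =>
    (M t).map (Polynomial.aeval (X (a t) : MvPolynomial (Fin n) ℂ))).prod i j * C (v j)

/-- The point with seeds `y, z ∈ ℕ^s`: its `i`-th coordinate is
`∑_l y_l ∏_{k ≠ i} (z_l - k)` (the Shpilka–Volkovich generator with nodes `0, …, n-1`). -/
def point (n s : ℕ) (y z : Fin s → ℕ) : Fin n → ℤ :=
  fun i => ∑ l : Fin s, (y l : ℤ) * ∏ k ∈ Finset.univ.erase i, ((z l : ℤ) - (k.val : ℤ))

/-- The explicit set of all points with seeds `y ∈ {0,…,d}^s`, `z ∈ {0,…,nd}^s`. -/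
def points (n s d : ℕ) : Finset (Fin n → ℤ) :=
  ((Fintype.piFinset fun _ : Fin s => Finset.range (d + 1)) ×ˢ
    (Fintype.piFinset fun _ : Fin s => Finset.range (n * d + 1))).image
    fun yz => point n s yz.1 yz.2

open Pool.Agent.W943 Pool.Agent.H530R2

/-- the families of classes -/
noncomputable def upO : ℕ → FamO ℂ
  | 0 => baseO ℂ
  | D + 1 => (upO D).next

/-- the parameter of the classes -/
noncomputable def bdO (w : ℕ) : ℕ → ℕ
  | 0 => w
  | D + 1 => bdO w D + w + w * w + (w * w * (upO D).bd (bdO w D) + 1) ^ w + 1 +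
      (upO D).bd (bdO w D)

theorem RankLe.bdl {n : ℕ} {k : Fin n} {r : ℕ} {f : MvPolynomial (Fin n) ℂ} (h : RankLe k r f) :
    Bdl k r f := by
  obtain ⟨b, c, hc, hf⟩ := h
  refine ⟨r, le_rfl, b, c, fun a => ?_, hf⟩
  rw [mem_supported]
  intro x hx
  show x ≠ k
  rintro rfl
  exact hc a (Finset.mem_coe.1 hx)

theorem rowOf_eq {n w : ℕ} (u : Fin w → ℂ)
    (M : ℕ → Matrix (Fin w) (Fin w) (MvPolynomial (Fin n) ℂ)) (R : ℕ) (j : Fin w) :
    rowOf u M R j = ∑ i, C (u i) * (List.ofFn fun t : Fin R => M t).prod i j := by
  induction R generalizing j with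
  | zero =>
    simp [rowOf, Matrix.one_apply]
  | succ R ih =>
    simp only [rowOf]
    rw [List.ofFn_succ', List.concat_eq_append, List.prod_append, List.prod_singleton]
    simp only [Matrix.mul_apply, Fin.val_last, Fin.val_castSucc, Finset.mul_sum]
    rw [Finset.sum_comm]
    apply Finset.sum_congr rfl
    intro l _
    rw [ih l, Finset.sum_mul]
    apply Finset.sum_congr rfl
    intro i _
    ring

theorem comp_mem {n w D : ℕ} {f : MvPolynomial (Fin n) ℂ} (h : Comp w D f) :
    f ∈ (upO D).K n (bdO w D) := by
  classical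
  induction h with
  | base i p g hg =>
    show SP _ _ _ _
    refine ⟨Fin w, inferInstance, fun a => ∏ b, Polynomial.aeval (X (i a b)) (p a b), g, ?_,
      fun a => ?_, hg, rfl⟩
    · rw [Fintype.card_fin]; exact le_rfl
    · refine ⟨List.ofFn fun b => (i a b, p a b), ?_, ?_⟩
      · rw [List.length_ofFn]; exact le_rfl
      · rw [List.map_ofFn, List.prod_ofFn]
        rfl
  | @up D f _ ih =>
    exact (upO D).toNext (by simp only [bdO]; omega) (by simp only [bdO]; omega)
      (by simp only [bdO]; omega) ih
  | @linear D R M u v hM hR ih =>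
    set M' : ℕ → Matrix (Fin w) (Fin w) (MvPolynomial (Fin n) ℂ) :=
      fun t => if h : t < R then M ⟨t, h⟩ else 0 with hM'
    have hMM : ∀ t : Fin R, M' t = M t := fun t => by simp [hM', t.isLt]
    have h1 := linear_mem (upO D) (W := bdO w D) (k := w) u v M' R (fun t ht l j => by
      have := hMM ⟨t, ht⟩
      simp only at this
      rw [this]
      exact ih _ _ _) (fun x => by
      refine le_trans ?_ (hR x)
      rw [← Finset.card_map (⟨Fin.val, Fin.val_injective⟩ : Fin R ↪ ℕ)]
      apply Finset.card_le_card
      intro t ht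
      obtain ⟨ht1, l, j, hlj⟩ := Finset.mem_filter.1 ht
      rw [Finset.mem_range] at ht1
      refine Finset.mem_map.2 ⟨⟨t, ht1⟩, Finset.mem_filter.2 ⟨Finset.mem_univ _, l, j, ?_⟩, rfl⟩
      rwa [← hMM ⟨t, ht1⟩])
    have h2 : ∑ j, rowOf u M' R j * C (v j) =
        ∑ i, ∑ j, C (u i) * (List.ofFn M).prod i j * C (v j) := by
      rw [Finset.sum_comm]
      apply Finset.sum_congr rfl
      intro j _
      rw [rowOf_eq, Finset.sum_mul]
      simp only [hMM]
    rw [h2] at h1
    exact (upO (D + 1)).mono (by simp only [bdO]; omega) h1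
  | @program D u v c₀ arg upd R P S hu hv hS hocc _ hrk hrkf ih =>
    set B : ℕ → Finset (Fin n) := fun t => Finset.univ.biUnion fun i => (arg t i).vars with hB
    have hreg : RegO (upO D) B (bdO w D + (upO D).c0) (fun b j => contents c₀ arg upd b j)
        (fun b i => arg b i) := by
      refine ⟨fun i => ⟨c₀ i, rfl⟩,
        fun b i => (upO D).mono (Nat.le_add_right _ _) (ih b i), ?_, fun b j => ?_⟩
      · intro b i
        rw [mem_supported]
        exact_mod_cast Finset.subset_biUnion_of_mem (fun i => (arg b i).vars) (Finset.mem_univ i)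
      · have h1 : contents c₀ arg upd (b + 1) j =
          aeval (Sum.elim (contents c₀ arg upd b) (arg b)) (upd b j) := rfl
        show contents c₀ arg upd (b + 1) j ∈ _
        rw [h1, ← Set.Sum.elim_range, Algebra.adjoin_range_eq_range_aeval]
        exact ⟨upd b j, rfl⟩
    refine OutO.ofReg (hreg.trunc (Nat.le_add_left _ _) R) ?_ ?_ ?_ ?_ ⟨S, ?_, ?_⟩ (R := R) ?_ ?_
    · intro t j x _
      exact (hrk (min t R) (min_le_right _ _) j x).bdl.mono (by simp only [bdO]; omega)
    · simp only [bdO]; omega
    · rw [Fintype.card_fin]; simp only [bdO]; omega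
    · rw [Fintype.card_fin]; simp only [bdO]; omega
    · simp only [bdO]; omega
    · intro k hk t
      refine ((cnt_trunc B R t k).trans ?_).trans (show w ≤ bdO w (D + 1) by
        simp only [bdO]; omega)
      refine le_trans ?_ (hocc k hk)
      unfold cnt
      apply Finset.card_le_card
      intro t' ht'
      obtain ⟨h1, h2⟩ := Finset.mem_filter.1 ht'
      obtain ⟨i, _, hi⟩ := Finset.mem_biUnion.1 h2
      exact Finset.mem_filter.2 ⟨h1, i, hi⟩
    · show aeval (contents c₀ arg upd R) P ∈ Algebra.adjoin ℂ
        (Set.range fun j => contents c₀ arg upd (min R R) j)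
      rw [min_self]
      have h1 := (Algebra.adjoin_range_eq_range_aeval ℂ (contents c₀ arg upd R)).ge
      exact h1 ⟨P, rfl⟩
    · intro x _
      exact (hrkf x).bdl.mono (by simp only [bdO]; omega)

/-- the number of seeds for composites -/
noncomputable def seeds (w D r : ℕ) : ℕ :=
  ((upO D).seeds ((upO D).dg ((upO D).der (bdO w D)) r)).choose + 1 + r

theorem composite_notMem {n w D r : ℕ} {F : MvPolynomial (Fin n) ℂ} (hF : Composite w D r F)
    (h0 : F ≠ 0) (V : DChain ℂ n) : F ∉ V.I (seeds w D r) := by
  obtain ⟨N, g, P, hg, htr, rfl⟩ := hF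
  set W := (upO D).dg ((upO D).der (bdO w D)) r with hW
  have hm := ((upO D).seeds W).choose_spec
  refine V.comp_trdeg g r (((upO D).seeds W).choose + 1) htr ?_ h0
  intro ρ κ s hρ hdet hmem
  apply hdet
  refine hm n V _ ?_ ∅ ?_
  · exact FamO.det_mem hρ fun a b => (upO D).der_mem _ (comp_mem (hg _))
  · show _ ∈ V.H (((upO D).seeds W).choose + 1) ∅
    rw [V.H_empty]
    exact hmem

theorem one_notMem {n : ℕ} (V : DChain ℂ n) (j : ℕ) : (1 : MvPolynomial (Fin n) ℂ) ∉ V.I j := by
  intro h
  exact (V.prime j).ne_top ((Ideal.eq_top_iff_one _).2 h)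

theorem Cls.notMem {w D r n : ℕ} {f : MvPolynomial (Fin n) ℂ} (h : Cls w D r n f) :
    ∀ V : DChain ℂ n, f ∉ V.I (seeds w D r) := by
  induction h with
  | comp hF φ E hE h0 =>
    intro V hc
    refine composite_notMem hF (fun h => h0 (by rw [h, map_zero]))
      (V.pull φ E 1 hE 0 (one_notMem V 0)) ?_
    show _ ∈ V.I (0 + seeds w D r)
    rwa [zero_add]
  | mul _ _ ihf ihg =>
    intro V hc
    rcases (V.prime _).mem_or_mem hc with h | h
    · exact ihf V h
    · exact ihg V h
  | factor _ h ih => exact fun V hc => ih V (Ideal.mem_of_dvd _ h hc)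

/-- Independent affine forms. -/
theorem affine {w D r n m : ℕ} {F : MvPolynomial (Fin m) ℂ} (hF : Composite w D r F) (h0 : F ≠ 0)
    (A : Fin m → Fin n → ℂ) (b : Fin m → ℂ) (hA : LinearIndependent ℂ A) :
    Cls w D r n (aeval (fun k => ∑ l, C (A k l) * X l + C (b k)) F) := by
  classical
  have hd : ∀ i : Fin m, ∃ d : Fin n → ℂ, ∀ k, A k ⬝ᵥ d = if i = k then 1 else 0 :=
    fun i => Pool.Agent.H530R2.exists_dual A hA _
  choose d hd using hd
  have hE : ∀ i k, ∑ l, (C (d i l) : MvPolynomial (Fin n) ℂ) *
      pderiv l (∑ l', C (A k l') * X l' + C (b k)) = if i = k then 1 else 0 := by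
    intro i k
    have h1 : ∀ l, pderiv l (∑ l', C (A k l') * X l' + C (b k) : MvPolynomial (Fin n) ℂ) =
        C (A k l) := by
      intro l
      rw [map_add, pderiv_C, add_zero, map_sum, Finset.sum_eq_single l]
      · rw [pderiv_C_mul, pderiv_X_self, mul_one]
      · intro l' _ hl'
        rw [pderiv_C_mul, pderiv_X_of_ne hl', mul_zero]
      · intro h; exact absurd (Finset.mem_univ _) h
    simp only [h1, ← map_mul, ← map_sum]
    have h2 : ∑ l, d i l * A k l = if i = k then 1 else 0 := by
      rw [← hd i k, dotProduct]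
      exact Finset.sum_congr rfl fun l _ => mul_comm _ _
    rw [h2]
    split_ifs
    · rw [map_one]
    · rw [map_zero]
  refine Cls.comp hF _ _ hE ?_
  -- the pull-back of a chain has a zero ideal
  intro h
  have V : DChain ℂ n := Pool.Agent.W943.genChain (fun i : Fin n => ((i.val : ℕ) : ℂ))
    (Pool.Agent.H530R2.nodes_injective n)
  have h1 : F ∈ (V.pull _ _ 1 hE 0 (one_notMem V 0)).I m := by
    show _ ∈ V.I (0 + m)
    rw [h]
    exact (V.I _).zero_mem
  rw [DChain.level_n] at h1
  exact h0 ((Submodule.mem_bot _).1 h1)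

/-- Oblivious branching programs of width `w` which read every variable at most `w` times. -/
theorem oblivious_comp {n w l : ℕ} (a : Fin l → Fin n)
    (M : Fin l → Matrix (Fin w) (Fin w) (Polynomial ℂ)) (u v : Fin w → ℂ)
    (ha : ∀ k, (Finset.univ.filter fun t => a t = k).card ≤ w) :
    Comp w 1 (oblivious a M u v) := by
  classical
  refine Comp.linear l (fun t => (M t).map
    (Polynomial.aeval (X (a t) : MvPolynomial (Fin n) ℂ))) u v ?_ ?_
  · intro t i j
    have h1 := Comp.base (w := w) (fun _ _ => a t) (fun _ b => if b = i then M t i j else 1)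
      (fun c => if c = i then (1 : MvPolynomial (Fin n) ℂ) else 0) (fun c => by
        split_ifs
        · rw [totalDegree_one]; exact Nat.zero_le _
        · rw [totalDegree_zero]; exact Nat.zero_le _)
    have h2 : ∑ c : Fin w, (∏ b : Fin w, Polynomial.aeval (X (a t) : MvPolynomial (Fin n) ℂ)
        (if b = i then M t i j else 1)) *
          (if c = i then (1 : MvPolynomial (Fin n) ℂ) else 0) =
        Polynomial.aeval (X (a t)) (M t i j) := by
      rw [← Finset.mul_sum, Finset.sum_ite_eq' Finset.univ i, if_pos (Finset.mem_univ _), mul_one,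
        Finset.prod_eq_single i]
      · rw [if_pos rfl]
      · intro b _ hb
        rw [if_neg hb, map_one]
      · intro h; exact absurd (Finset.mem_univ _) h
    rw [h2] at h1
    exact h1
  · intro k
    refine le_trans (Finset.card_le_card ?_) (ha k)
    intro t ht
    obtain ⟨_, i, j, h⟩ := Finset.mem_filter.1 ht
    refine Finset.mem_filter.2 ⟨Finset.mem_univ _, ?_⟩
    by_contra hne
    have h3 : Polynomial.aeval (X (a t) : MvPolynomial (Fin n) ℂ) (M t i j) ∈
        supported ℂ ({a t} : Set (Fin n)) := by
      have h4 : (X (a t) : MvPolynomial (Fin n) ℂ) ∈ supported ℂ ({a t} : Set (Fin n)) :=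
        X_mem_supported.2 rfl
      exact (Algebra.adjoin_le (S := supported ℂ ({a t} : Set (Fin n))) (Set.singleton_subset_iff.2 h4))
        (Polynomial.aeval_mem_adjoin_singleton ℂ _)
    exact hne ((mem_supported.1 h3) (Finset.mem_coe.2 h)).symm

theorem single {n w D : ℕ} {f : MvPolynomial (Fin n) ℂ} (h : Comp w D f) : Composite w D 1 f := by
  refine ⟨1, fun _ => f, X 0, fun _ => h, fun q hq => ?_, by rw [aeval_X]⟩
  have h1 : (0 : Fin 2) = 1 := hq.injective rfl
  exact absurd h1 (by decide)

/-- There is a function `s` of three parameters such that for all `w, D, r, n, d` the explicit set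
`points n (s w D r) d ⊆ ℤ^n`, with at most `((d+1)(nd+1))^(s w D r)` elements of polynomial bit
length, hits all polynomials of degree at most `d` in `Cls w D r n`. This class contains the
compositions with linearly independent affine forms of the composites (of bounded transcendence
degree `r`) of polynomials computed by programs of width `w`, number of reads `w` and depth `D`; the
oblivious branching programs of width `w` with at most `w` reads of every variable are programs of
depth one. -/
theorem result : ∃ s : ℕ → ℕ → ℕ → ℕ,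
    (∀ w D r n d : ℕ,
      (points n (s w D r) d).card ≤ ((d + 1) * (n * d + 1)) ^ s w D r ∧
      (∀ p ∈ points n (s w D r) d, ∀ i,
        |p i| ≤ ((s w D r * d * (n * d + n) ^ (n - 1) : ℕ) : ℤ)) ∧
      ∀ f : MvPolynomial (Fin n) ℂ, Cls w D r n f → f.totalDegree ≤ d →
        ∃ p ∈ points n (s w D r) d, MvPolynomial.eval (fun i => (p i : ℂ)) f ≠ 0) ∧
    (∀ (w D r n m : ℕ) (F : MvPolynomial (Fin m) ℂ) (A : Fin m → Fin n → ℂ) (b : Fin m → ℂ),
      Composite w D r F → F ≠ 0 → LinearIndependent ℂ A →
      Cls w D r n (aeval (fun k => ∑ l, C (A k l) * X l + C (b k)) F)) ∧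
    (∀ (n w l : ℕ) (a : Fin l → Fin n) (M : Fin l → Matrix (Fin w) (Fin w) (Polynomial ℂ))
      (u v : Fin w → ℂ), (∀ k, (Finset.univ.filter fun t => a t = k).card ≤ w) →
      Comp w 1 (oblivious a M u v)) ∧
    (∀ (n w D : ℕ) (f : MvPolynomial (Fin n) ℂ), Comp w D f → Composite w D 1 f) := by
  refine ⟨seeds, fun w D r n d => ⟨Pool.Agent.H530R2.hitSet_card n _ d,
    fun p hp i => Pool.Agent.H530R2.hitSet_bound n _ d p hp i, ?_⟩,
    fun w D r n m F A b hF h0 hA => affine hF h0 A b hA,
    fun n w l a M u v ha => oblivious_comp a M u v ha, fun n w D f h => single h⟩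
  intro f hf hd
  exact Pool.Agent.H530R2.exists_hit n _ d f hd (hf.notMem
    (Pool.Agent.W943.genChain (fun i : Fin n => ((i.val : ℕ) : ℂ))
      (Pool.Agent.H530R2.nodes_injective n)))

end Pool.Agent.Results.MP_b2b50d_lc.OrbitsOfReadKPrograms
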