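import Pool.Agent.W936.SP.Main

/-!
# Identity testing for circuits of exponential degree: sums of power products of read-once formulas
of any depth and of sparse polynomials

`ACIT` is the set of the codes of the well-formed arithmetic circuits computing the zero
polynomial. For all constants `w ≥ 1, D, t, κ` and every fixed exponent `c` there is a
deterministic polynomial-time machine that accepts all of `ACIT` and rejects all codes of circuits
that compute a polynomial with `Tame w D t κ (m ^ c)`, where `m` is the length of the code.

The class consists of divisors of products of sums `∑_i c_i ∏_j g_j ^ e_ij` of power products with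
exponentially large exponents, of transcendence degree at most `κ`, for instance of all sums of `κ`
such products. The bases `g_j` are polynomials in `w` formulas (`Composite w n D t`), `n = m ^ c`:
arbitrary polynomials with `n` monomials and degree less than `w` in each variable, for instance
multilinear ones (depth-4 circuits of bounded top fan-in with exponentially large exponents); all
read-once formulas of any depth over such polynomials; and formulas over such polynomials, or over
programs of width `w`, in which every variable occurs in at most `w` leaves, if the alternation of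
sums and products is bounded.

The algorithm evaluates the circuit modulo powers of small primes at the points
`x_i = a b_i(u) + ∑_t y_t ∏_{j ≠ i} (z_t + j + 1)`, where `b_i(u)` is the integer polynomial of
degree `N` which is equal to `N! (1 + (i + 1) M!) ^ u` for `u = 0, …, N`, and `N` is polynomial in
`n`. The polynomials `b_i` do not satisfy any equation with at most `N` monomials, as the numbers
`1 + (i + 1) M!` are pairwise coprime. The hitting theorem over the complex numbers is the one of
`MP_c2aa42_lc.SumsOfSparseFormulas`, here for an arbitrary base point that hits sparse polynomials;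
the p-adic estimate is the one of `Pool.Agent.H531R2`, `Pool.Agent.H626R2`, here for a generator
with arbitrary integer polynomials as coordinates.
-/

set_option autoImplicit false

namespace Pool.Agent.Results.MP_b2b50d_lc.PowersOfFormulas

open Pool.Agent.NPC Pool.Agent.H531R2 Pool.Agent.W936 Pool.Agent.W936.SP MvPolynomial
open Pool.Agent.Results.MP_c2aa42_lc.SumsOfSparseFormulas

/-- Sums of `κ` power products of composite polynomials. -/
theorem few_of_fanin {w D t κ n : ℕ} (hκ : 1 ≤ κ) (hκn : κ ≤ n)
    (g : Fin n → MvPolynomial (Fin n) ℤ) (e : Fin κ → Fin n → ℕ) (c : Fin κ → ℚ)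
    (hg : ∀ j, g j ≠ 0 ∧ (g j).totalDegree ≤ n ∧
      ∑ a ∈ (g j).support, (coeff a (g j)).natAbs ≤ 2 ^ n ∧
      Composite w n D t (map (Int.castRingHom ℂ) (g j)))
    (he : ∀ i j, e i j ≤ 2 ^ n) :
    Few w D t κ n (∑ i, C (c i) * ∏ j, map (Int.castRingHom ℚ) (g j) ^ e i j) := by
  classical
  obtain ⟨n', rfl⟩ : ∃ n', n = κ + n' := ⟨n - κ, by omega⟩
  let ι : Fin (κ + n') → Fin κ := fun i => Fin.addCases (motive := fun _ => Fin κ)
    (fun i => i) (fun _ => ⟨0, hκ⟩) i
  let c' : Fin (κ + n') → ℚ := fun i => Fin.addCases (motive := fun _ => ℚ) c (fun _ => 0) i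
  refine ⟨g, fun i => e (ι i), c', hg, fun i j => he _ j, ?_, ?_⟩
  · intro u hu
    have h1 : Function.Injective (fun a => ι (u a)) := by
      intro a b hab
      apply hu.injective
      simp only at hab ⊢
      rw [hab]
    have h2 := Fintype.card_le_of_injective _ h1
    rw [Fintype.card_fin, Fintype.card_fin] at h2
    omega
  · rw [Fin.sum_univ_add]
    simp [ι, c']

/-- Formulas are composite. -/
theorem composite_of_formula {w D t n : ℕ} (hw : 1 ≤ w) (E : Formula n)
    (hE : E.Leaves (Prog w n D)) (h : ∀ x, E.reads x ≤ w)
    (ht : Rank w false t ∅ E ∨ (∀ x, E.reads x ≤ 1) ∨ E.sumDepth ≤ t ∨ E.size < 2 ^ (t + 1)) :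
    Composite w n D t E.value := by
  refine comp_formula hw E hE h ?_
  rcases ht with h3 | h3 | h3 | h3
  · exact h3
  · exact rank_of_readOnce E h3
  · exact (rank_of_sumDepth E t h3).1
  · exact .spine (spine_of_size E t h3)

theorem prog_lift {n w s D : ℕ} (hw : 1 ≤ w) {f : MvPolynomial (Fin n) ℂ} (h : Prog w s D f) :
    Prog w s (D + 1) f := by
  have h1 := Prog.program (w := w) (s := s) (D := D) (u := 1) (fun _ => 1) (fun _ => fun _ _ => f)
    1 (X 0) hw ?_ (fun _ _ _ => h)
  · have h2 : aeval (contents (fun _ : Fin 1 => (1 : ℂ)) (fun _ => fun _ _ => f) 1)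
        (X 0 : MvPolynomial (Fin 1) ℂ) = f := by
      rw [aeval_X]
      show ∑ j : Fin 1, C (1 : ℂ) * f = f
      rw [Fin.sum_univ_one, C_1, one_mul]
    rwa [h2] at h1
  · intro x
    refine (Finset.card_filter_le _ _).trans ?_
    rw [Finset.card_range]
    exact hw

/-- Polynomials with few monomials are composite. -/
theorem composite_of_sparse {w D t n : ℕ} (hw : 1 ≤ w) {f : MvPolynomial (Fin n) ℂ}
    (hf : f.support.card ≤ n) (hf' : ∀ i, f.degreeOf i < w) : Composite w n D t f := by
  classical
  have h0 : Prog w n 0 f := by
    refine Prog.sparse hf (Or.inr fun i => ?_)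
    refine (Finset.card_le_card (t := Finset.range w) ?_).trans (by simp)
    intro x hx
    obtain ⟨a, ha, rfl⟩ := Finset.mem_image.1 hx
    exact Finset.mem_range.2 (lt_of_le_of_lt (le_degreeOf_of_mem_support i ha) (hf' i))
  have hD : ∀ D, Prog w n D f := by
    intro D
    induction D with
    | zero => exact h0
    | succ D ih => exact prog_lift hw ih
  refine comp_formula hw (.leaf f) (hD D) (fun x => ?_) (.spine (.leaf t f))
  rw [Formula.reads]
  split_ifs
  · exact hw
  · exact Nat.zero_le w

/-- (1) The decision procedure. (2) The class `Few w D t κ n` contains the sums of `κ` power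
products of `n` composite integer polynomials, with exponents at most `2 ^ n`. (3) The values of
formulas over leaves of depth `D` (`Prog w n D`), where every variable occurs in at most `w`
leaves, are composite if the formula has rank at most `t`, or is read-once, or if every path from
the output to a leaf contains at most `t` blocks of consecutive sums, or if there are fewer than
`2 ^ (t + 1)` leaves. (4) Polynomials with at most `n` monomials and degree less than `w` in each
variable are composite. -/
theorem result (w D t κ : ℕ) (hw : 1 ≤ w) :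
    (∀ c : ℕ, ∃ A : List Bool → List Bool, PolyTime A ∧
      (∀ x, A x = [true] ∨ A x = [false]) ∧
      (∀ x ∈ ACIT, A x = [true]) ∧
      (∀ x, (∀ C : List Gate, WF C → bits C ≠ x) → A x = [false]) ∧
      ∀ C : List Gate, Tame w D t κ ((bits C).length ^ c) (cpoly C) → A (bits C) = [false]) ∧
    (∀ (n : ℕ) (g : Fin n → MvPolynomial (Fin n) ℤ) (e : Fin κ → Fin n → ℕ) (c : Fin κ → ℚ),
      1 ≤ κ → κ ≤ n →
      (∀ j, g j ≠ 0 ∧ (g j).totalDegree ≤ n ∧
        ∑ a ∈ (g j).support, (coeff a (g j)).natAbs ≤ 2 ^ n ∧
        Composite w n D t (map (Int.castRingHom ℂ) (g j))) →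
      (∀ i j, e i j ≤ 2 ^ n) →
      Few w D t κ n (∑ i, C (c i) * ∏ j, map (Int.castRingHom ℚ) (g j) ^ e i j)) ∧
    (∀ (n : ℕ) (E : Formula n), E.Leaves (Prog w n D) → (∀ x, E.reads x ≤ w) →
      (Rank w false t ∅ E ∨ (∀ x, E.reads x ≤ 1) ∨ E.sumDepth ≤ t ∨ E.size < 2 ^ (t + 1)) →
      Composite w n D t E.value) ∧
    ∀ (n : ℕ) (f : MvPolynomial (Fin n) ℂ), f.support.card ≤ n → (∀ i, f.degreeOf i < w) →
      Composite w n D t f :=
  ⟨fun c => main w D t κ c hw, fun _ g e c hκ hκn hg he => few_of_fanin hκ hκn g e c hg he,
    fun _ E hE h ht => composite_of_formula hw E hE h ht,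
    fun _ _ hf hf' => composite_of_sparse hw hf hf'⟩

end Pool.Agent.Results.MP_b2b50d_lc.PowersOfFormulas
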