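import Pool.Agent.W936.SP.Thin
import Pool.Agent.Results.MP_b2b50d_lc.PowersOfFormulas

/-!
# Identity testing for circuits of exponential degree: sums of unboundedly many power products
with bounded co-occurrence of the variables

`ACIT` is the set of the codes of the well-formed arithmetic circuits computing the zero
polynomial. For all constants `w ≥ 1, D, t, κ, r` and every fixed exponent `c` there is a
deterministic polynomial-time machine that accepts all of `ACIT` and rejects all codes of circuits
that compute a polynomial with `Tame w D t κ r (m ^ c)`, where `m` is the length of the code.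

The class consists of divisors of products of sums `∑_i c_i ∏_j g_j ^ e_ij` of `n = m ^ c` power
products with exponents up to `2 ^ n`, so that the top fan-in and the transcendence degree are
unbounded, where the hypergraph of the sets of the variables of the power products is thin: for
instance if any `r` variables, outside of a set of at most `w` variables, occur together in at most
`κ` of the power products. (For `r = 0` these are the sums of `κ` power products. For `r = 1` every
variable occurs in at most `κ` of the products, for `r = 2` every variable may occur in all of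
them.) The bases `g_j` are composite (`Composite w n D t`), for instance any polynomials with at
most `n` monomials and degree less than `w` in each variable, or read-once formulas of any depth
over such polynomials.

The algorithm is the one of `Pool.Agent.W936.SP`, with more seeds. The new ingredient is the
injectivity of the substitution on all integer combinations of the power products: a combination
is again a sum of products with a thin hypergraph, and the argument of
`MP_c2aa42_lc.BoundedCooccurrence` (if a polynomial vanishes on the generator with one more seed,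
then so do its differences with respect to each variable, and these are sums of products over the
link of the variable) works for the generator over any base that hits sparse polynomials.
-/

set_option autoImplicit false

namespace Pool.Agent.Results.MP_b2b50d_lc.ThinPowerSums

open Pool.Agent.NPC Pool.Agent.H531R2 Pool.Agent.W936 Pool.Agent.W936.SP.Th MvPolynomial
open Pool.Agent.Results.MP_c2aa42_lc.SumsOfSparseFormulas
open Pool.Agent.Results.MP_c2aa42_lc.BoundedCooccurrence (Thin thin_of_sets)

/-- Sums of power products such that any `r` variables occur together in few of them. -/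
theorem few_of_sets {w D t κ r n : ℕ}
    (g : Fin n → MvPolynomial (Fin n) ℤ) (e : Fin n → Fin n → ℕ) (c : Fin n → ℚ)
    (hg : ∀ j, g j ≠ 0 ∧ (g j).totalDegree ≤ n ∧
      ∑ a ∈ (g j).support, (coeff a (g j)).natAbs ≤ 2 ^ n ∧
      Composite w n D t (map (Int.castRingHom ℂ) (g j)))
    (he : ∀ i j, e i j ≤ 2 ^ n) (E : Finset (Fin n)) (hE : E.card ≤ w)
    (hS : ∀ S : Finset (Fin n), S.card = r → Disjoint S E → ∀ J : Finset (Fin n),
      (∀ i ∈ J, ∀ x ∈ S, ∃ j, e i j ≠ 0 ∧ x ∈ (g j).vars) → J.card ≤ κ) :
    Few w D t κ r n (∑ i, C (c i) * ∏ j, map (Int.castRingHom ℚ) (g j) ^ e i j) := by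
  classical
  refine ⟨g, e, c, fun i => (Finset.univ.filter fun j => e i j ≠ 0).biUnion fun j => (g j).vars,
    hg, he, fun i j hij => ?_, ?_, rfl⟩
  · exact Finset.subset_biUnion_of_mem (fun j => (g j).vars)
      (Finset.mem_filter.2 ⟨Finset.mem_univ j, hij⟩)
  · refine thin_of_sets E hE r _ _ fun S hSr hSE => hS S hSr hSE _ fun i hi x hx => ?_
    have h1 := (Finset.mem_filter.1 hi).2 hx
    obtain ⟨j, hj, hx'⟩ := Finset.mem_biUnion.1 h1
    exact ⟨j, (Finset.mem_filter.1 hj).2, hx'⟩

/-- (1) The decision procedure. (2) The class `Few w D t κ r n` contains the sums of `n` power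
products of `n` composite integer polynomials, with exponents at most `2 ^ n`, if any `r`
variables outside of a set `E` of at most `w` variables occur together in at most `κ` of the
products. (3) Polynomials with at most `n` monomials and degree less than `w` in each variable are
composite; so are the values of formulas of rank at most `t`, for instance of read-once formulas of
any depth, over such leaves (`Prog w n D`), where every variable occurs in at most `w` leaves. -/
theorem result (w D t κ r : ℕ) (hw : 1 ≤ w) :
    (∀ c : ℕ, ∃ A : List Bool → List Bool, PolyTime A ∧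
      (∀ x, A x = [true] ∨ A x = [false]) ∧
      (∀ x ∈ ACIT, A x = [true]) ∧
      (∀ x, (∀ C : List Gate, WF C → bits C ≠ x) → A x = [false]) ∧
      ∀ C : List Gate, Tame w D t κ r ((bits C).length ^ c) (cpoly C) →
        A (bits C) = [false]) ∧
    (∀ (n : ℕ) (g : Fin n → MvPolynomial (Fin n) ℤ) (e : Fin n → Fin n → ℕ) (c : Fin n → ℚ),
      (∀ j, g j ≠ 0 ∧ (g j).totalDegree ≤ n ∧
        ∑ a ∈ (g j).support, (coeff a (g j)).natAbs ≤ 2 ^ n ∧
        Composite w n D t (map (Int.castRingHom ℂ) (g j))) →
      (∀ i j, e i j ≤ 2 ^ n) →
      ∀ E : Finset (Fin n), E.card ≤ w →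
      (∀ S : Finset (Fin n), S.card = r → Disjoint S E → ∀ J : Finset (Fin n),
        (∀ i ∈ J, ∀ x ∈ S, ∃ j, e i j ≠ 0 ∧ x ∈ (g j).vars) → J.card ≤ κ) →
      Few w D t κ r n (∑ i, C (c i) * ∏ j, map (Int.castRingHom ℚ) (g j) ^ e i j)) ∧
    (∀ (n : ℕ) (f : MvPolynomial (Fin n) ℂ), f.support.card ≤ n → (∀ i, f.degreeOf i < w) →
      Composite w n D t f) ∧
    ∀ (n : ℕ) (E : Formula n), E.Leaves (Prog w n D) → (∀ x, E.reads x ≤ w) →
      (Rank w false t ∅ E ∨ ∀ x, E.reads x ≤ 1) → Composite w n D t E.value := by
  refine ⟨fun c => main w D t κ r c hw,
    fun n g e c hg he E hE hS => few_of_sets g e c hg he E hE hS,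
    fun n f hf hf' => PowersOfFormulas.composite_of_sparse hw hf hf', fun n E hE hr h => ?_⟩
  refine PowersOfFormulas.composite_of_formula hw E hE hr ?_
  rcases h with h | h
  · exact Or.inl h
  · exact Or.inr (Or.inl h)

end Pool.Agent.Results.MP_b2b50d_lc.ThinPowerSums
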