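import Mathlib
import Pool.Agent.W915.HG4

/-!
# Huge powers behave like independent variables

Circuits of exponential degree over a field `F` of characteristic zero, whose high powers are
organised in levels: a power gate `y_{l,j} = g_{l,j}(x, y)^(E l j)` of level `l` raises a polynomial
`g_{l,j}` of low degree in the input variables and in the power gates of lower levels to a huge
exponent. The theorem says that the polynomials of low degree in the inputs and in the power gates
vanish only if they vanish formally, that is, if every power gate is replaced by a new variable. So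
identity testing for these circuits reduces to identity testing for circuits of low degree, with
the same circuit.

Conditions: the bases of each level are multiplicatively independent modulo constants (for the
levels `l ≥ 1` only formally and up to the given degree); the exponents of level `0` are arbitrary
numbers with more than `(2 m + 2) log ((m + 1) (γ + 1) (D γ^L + 1))` bits, those of a level `l ≥ 1`
are equal and larger than a polynomial in the degrees of the power gates below and
`(D γ^L + 1)^(3 m)`. The number of monomials in the power gates is not restricted (it may be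
exponential in the size of a circuit, as the number of bits of the exponents is polynomial).

The proof: restriction to a generic line; a linear relation among the monomials in the power gates
with low degree coefficients is excluded by the Wronskian argument of Mason and Newman-Slater
(`Pool.Agent.H964R4.sepR`, `far_auxR` by helper964; `Pool.Agent.W915.HP.ns`), because their
quotients have large height. For arbitrary exponents of level `0` this is shown by inverting the
Gram matrix of the exponent matrix of the bases (`gram`).
-/

set_option autoImplicit false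

namespace Pool.Agent.Results.MP_b2b50d_lc.ZHugePowers

open MvPolynomial Pool.Agent.W915.HG

theorem levels {F : Type} [Field F] [CharZero F] (n m L D γ : ℕ) (hD : 1 ≤ D) (hγ : 1 ≤ γ)
    (g : ℕ → Fin m → MvPolynomial (Var n m) F) (E : ℕ → Fin m → ℕ)
    (v : Var n m → MvPolynomial (Fin n) F) (hv : ∀ i, v (.inl i) = X i)
    (hvg : ∀ l < L, ∀ j, v (.inr (l, j)) = (aeval v (g l j)) ^ E l j)
    (hvars : ∀ l < L, ∀ j, (∀ u ∈ (g l j).vars, Below l u) ∧ (g l j).totalDegree ≤ γ)
    (hind0 : ∀ (a b : Fin m → ℕ) (c : F), ∏ j, g 0 j ^ a j = C c * ∏ j, g 0 j ^ b j → a = b)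
    (hind : ∀ l, 0 < l → l < L → ∀ (a b : Fin m → ℕ) (c : F), ∑ j, a j ≤ D * γ ^ L + 1 →
      ∑ j, b j ≤ D * γ ^ L + 1 → ∏ j, g l j ^ a j = C c * ∏ j, g l j ^ b j → a = b)
    (hE0 : ∀ j, ((m + 1) * (γ + 1) * (D * γ ^ L + 1)) ^ (2 * m + 2) < E 0 j)
    (hEl : ∀ l, 0 < l → l < L → ∀ j, (∀ j', E l j = E l j') ∧
      (D * γ ^ L + 1) ^ (3 * m) * (D * γ ^ L * growth γ E l + 1) < E l j) :
    ∀ l ≤ L, (∀ u : Var n m, Below l u → (v u).totalDegree ≤ growth γ E l) ∧
      InjOn v l (D * γ ^ (L - l)) := by
  intro l
  induction l with
  | zero =>
    intro _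
    refine ⟨fun u hu => ?_, injOn_zero hv _⟩
    rcases u with i | u
    · rw [hv i, totalDegree_X]
      exact growth_pos γ E 0
    · exact absurd hu (Nat.not_lt_zero _)
  | succ l ih =>
    intro hlL
    obtain ⟨hW, hI⟩ := ih (by omega)
    have hl : l < L := by omega
    constructor
    · intro u hu
      rw [growth_succ]
      rcases u with i | ⟨l', j⟩
      · rw [hv i, totalDegree_X]
        exact Nat.mul_pos (growth_pos γ E l) (Nat.succ_pos _)
      · have h1 : l' < l + 1 := hu
        by_cases h2 : l' < l
        · exact (hW (.inr (l', j)) h2).trans (Nat.le_mul_of_pos_right _ (Nat.succ_pos _))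
        · have h3 : l' = l := by omega
          subst h3
          rw [hvg l' hl j]
          refine (totalDegree_pow _ _).trans ?_
          have h4 : (aeval v (g l' j)).totalDegree ≤ γ * growth γ E l' :=
            (totalDegree_aeval_vars v _ _ fun u hu => hW u ((hvars l' hl j).1 u hu)).trans
              (Nat.mul_le_mul_right _ (hvars l' hl j).2)
          have h5 : E l' j ≤ ∑ j, E l' j :=
            Finset.single_le_sum (f := fun j => E l' j) (fun _ _ => Nat.zero_le _)
              (Finset.mem_univ j)
          calc E l' j * (aeval v (g l' j)).totalDegree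
              ≤ (∑ j, E l' j) * (γ * growth γ E l') := Nat.mul_le_mul h5 h4
            _ = growth γ E l' * (γ * ∑ j, E l' j) := by ring
            _ ≤ growth γ E l' * (γ * ∑ j, E l' j + 1) := Nat.mul_le_mul_left _ (Nat.le_succ _)
    · have hDt : D * γ ^ (L - (l + 1)) ≤ D * γ ^ L :=
        Nat.mul_le_mul_left _ (Nat.pow_le_pow_right hγ (by omega))
      by_cases hm : m = 0
      · -- no power gates
        subst hm
        intro P hP hPD h0
        refine hI P (fun u hu => ?_) (hPD.trans (Nat.mul_le_mul_left _
          (Nat.pow_le_pow_right hγ (by omega)))) h0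
        rcases u with i | ⟨l', j⟩
        · trivial
        · exact j.elim0
      · by_cases hl0 : l = 0
        · subst hl0
          refine level_one hv (g 0) (E 0) (hvg 0 hl) (fun j => (hvars 0 hl j).1) γ
            (fun j => (hvars 0 hl j).2) hind0 _ fun j => lt_of_le_of_lt ?_ (hE0 j)
          exact Nat.pow_le_pow_left (Nat.mul_le_mul_left _ (by omega)) _
        · have hlpos : 0 < l := Nat.pos_of_ne_zero hl0
          let j0 : Fin m := ⟨0, Nat.pos_of_ne_zero hm⟩
          have h1 : D * γ ^ (L - l) = D * γ ^ (L - (l + 1)) * γ := by
            rw [mul_assoc, ← pow_succ]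
            congr 2
            omega
          refine level_succ (g l) (E l j0) (fun j => ?_) (fun j => (hvars l hl j).1) γ hγ
            (fun j => (hvars l hl j).2) (D * γ ^ (L - (l + 1))) (growth γ E l)
            (fun a b c ha hb => hind l hlpos hl a b c (ha.trans (by omega))
              (hb.trans (by omega))) (h1 ▸ hI) ?_ hW ?_
          · rw [hvg l hl j, (hEl l hlpos hl j0).1 j]
          · intro P hP hPD h0
            refine hI P hP (hPD.trans ?_) h0
            rw [h1]
            exact Nat.le_mul_of_pos_left _ (Nat.mul_pos hD (Nat.pow_pos hγ))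
          · refine lt_of_le_of_lt ?_ (hEl l hlpos hl j0).2
            exact Nat.mul_le_mul (Nat.pow_le_pow_left (by omega) _)
              (Nat.add_le_add_right (Nat.mul_le_mul_right _ hDt) 1)

/-- Let `F` be a field of characteristic zero, `n, m, L, D, γ` numbers with `D, γ ≥ 1`, and let
`v` be the substitution with `v x_i = x_i` and `v y_{l,j} = (g_{l,j}(v))^(E l j)` for the power
gates `y_{l,j}`, `j < m`, of the levels `l < L`, where the polynomial `g_{l,j}` has degree at most
`γ` and uses only the variables `x_i` and the gates of levels below `l`. Suppose: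

* the `g_{0,j}` are multiplicatively independent modulo constants, and
  `E 0 j > ((m + 1) (γ + 1) (D γ^L + 1))^(2 m + 2)`;
* for `0 < l < L` the formal polynomials `g_{l,j}` are multiplicatively independent modulo
  constants up to degree `D γ^L + 1`, the exponents of level `l` are equal, and
  `E l j > (D γ^L + 1)^(3 m) (D γ^L growth γ E l + 1)`.

Then a polynomial `P` of degree at most `D` in the variables `x_i` and in the power gates of the
levels below `L` computes the zero polynomial (in `x`) if and only if `P = 0` formally. -/
theorem result (F : Type) [Field F] [CharZero F] (n m L D γ : ℕ) (hD : 1 ≤ D) (hγ : 1 ≤ γ)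
    (g : ℕ → Fin m → MvPolynomial (Var n m) F) (E : ℕ → Fin m → ℕ)
    (v : Var n m → MvPolynomial (Fin n) F) (hv : ∀ i, v (.inl i) = X i)
    (hvg : ∀ l < L, ∀ j, v (.inr (l, j)) = (aeval v (g l j)) ^ E l j)
    (hvars : ∀ l < L, ∀ j, (∀ u ∈ (g l j).vars, Below l u) ∧ (g l j).totalDegree ≤ γ)
    (hind0 : ∀ (a b : Fin m → ℕ) (c : F), ∏ j, g 0 j ^ a j = C c * ∏ j, g 0 j ^ b j → a = b)
    (hind : ∀ l, 0 < l → l < L → ∀ (a b : Fin m → ℕ) (c : F), ∑ j, a j ≤ D * γ ^ L + 1 →
      ∑ j, b j ≤ D * γ ^ L + 1 → ∏ j, g l j ^ a j = C c * ∏ j, g l j ^ b j → a = b)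
    (hE0 : ∀ j, ((m + 1) * (γ + 1) * (D * γ ^ L + 1)) ^ (2 * m + 2) < E 0 j)
    (hEl : ∀ l, 0 < l → l < L → ∀ j, (∀ j', E l j = E l j') ∧
      (D * γ ^ L + 1) ^ (3 * m) * (D * γ ^ L * growth γ E l + 1) < E l j)
    (P : MvPolynomial (Var n m) F) (hP : ∀ u ∈ P.vars, Below L u) (hPD : P.totalDegree ≤ D) :
    aeval v P = 0 ↔ P = 0 := by
  constructor
  · intro h0
    have h := (levels n m L D γ hD hγ g E v hv hvg hvars hind0 hind hE0 hEl L le_rfl).2
    rw [Nat.sub_self, pow_zero, mul_one] at h
    exact h P hP hPD h0
  · rintro rfl
    exact map_zero _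

end Pool.Agent.Results.MP_b2b50d_lc.ZHugePowers
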